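import Mathlib

/-!
# Unions of two lattices in the plane

The plane is the complex plane. We show that the union of a translate of a lattice `L₁` and a
translate of a lattice `L₂` without common directions is a dense forest, and that `L₁ + L₂` is
dense in this case.
-/

set_option autoImplicit false

namespace Pool.Agent.T9h96.Forest

open Complex Metric Set Filter Topology

/-- The signed distance from the line `ℝ u` (for `|u| = 1`). -/
noncomputable def ph (u z : ℂ) : ℝ := (z * (starRingEnd ℂ) u).im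

/-- The coordinate in the direction `u` (for `|u| = 1`). -/
noncomputable def pr (u z : ℂ) : ℝ := (z * (starRingEnd ℂ) u).re

lemma ph_add (u z w : ℂ) : ph u (z + w) = ph u z + ph u w := by
  unfold ph; rw [add_mul, Complex.add_im]

lemma ph_sub (u z w : ℂ) : ph u (z - w) = ph u z - ph u w := by
  unfold ph; rw [sub_mul, Complex.sub_im]

lemma ph_real (u z : ℂ) (t : ℝ) : ph u (t * z) = t * ph u z := by
  unfold ph; rw [mul_assoc, Complex.im_ofReal_mul]

lemma pr_real (u z : ℂ) (t : ℝ) : pr u (t * z) = t * pr u z := by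
  unfold pr; rw [mul_assoc, Complex.re_ofReal_mul]

lemma pr_sub (u z w : ℂ) : pr u (z - w) = pr u z - pr u w := by
  unfold pr; rw [sub_mul, Complex.sub_re]

/-- `ph` as a homomorphism. -/
noncomputable def phHom (u : ℂ) : ℂ →+ ℝ where
  toFun := ph u
  map_zero' := by simp [ph]
  map_add' := ph_add u

@[simp] lemma phHom_apply (u z : ℂ) : phHom u z = ph u z := rfl

lemma decomp (u z : ℂ) (hu : ‖u‖ = 1) : z = (pr u z + ph u z * I) * u := by
  have h : (pr u z + ph u z * I : ℂ) = z * (starRingEnd ℂ) u := by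
    unfold pr ph; exact Complex.re_add_im _
  rw [h, mul_assoc, mul_comm ((starRingEnd ℂ) u) u, Complex.mul_conj, Complex.normSq_eq_norm_sq, hu]
  simp

lemma eq_of_ph_zero (u z : ℂ) (hu : ‖u‖ = 1) (h : ph u z = 0) : z = (pr u z : ℝ) * u := by
  have := decomp u z hu
  rw [h] at this
  simpa using this

lemma norm_le (u z : ℂ) (hu : ‖u‖ = 1) : ‖z‖ ≤ |pr u z| + |ph u z| := by
  conv_lhs => rw [decomp u z hu]
  rw [norm_mul, hu, mul_one]
  refine (norm_add_le _ _).trans ?_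
  rw [norm_mul, Complex.norm_I, mul_one, Complex.norm_real, Complex.norm_real,
    Real.norm_eq_abs, Real.norm_eq_abs]

lemma norm_sub_pr (u z : ℂ) (hu : ‖u‖ = 1) : ‖z - (pr u z : ℝ) * u‖ = |ph u z| := by
  have h : z - (pr u z : ℝ) * u = (ph u z : ℝ) * I * u := by
    conv_lhs => rw [decomp u z hu]
    have : pr u ((pr u z + ph u z * I) * u) = pr u z := by
      rw [← decomp u z hu]
    rw [this]; ring
  rw [h, norm_mul, norm_mul, hu, Complex.norm_I, Complex.norm_real, Real.norm_eq_abs]; ring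

/-- A full lattice in the plane. -/
structure IsLat (L : AddSubgroup ℂ) : Prop where
  /-- the covering radius is finite -/
  cov : ∃ R : ℝ, ∀ z : ℂ, ∃ l ∈ L, ‖z - l‖ ≤ R
  /-- there are two independent elements -/
  rk : ∃ e ∈ L, ∃ f ∈ L, ∀ m n : ℤ, m • e + n • f = 0 → m = 0 ∧ n = 0

lemma IsLat.ne_zero {L : AddSubgroup ℂ} (h : IsLat L) : ∃ e ∈ L, e ≠ 0 := by
  obtain ⟨e, he, f, hf, h⟩ := h.rk
  refine ⟨e, he, fun h0 => ?_⟩
  have := h 1 0 (by rw [h0]; simp)
  omega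

/-- If `L` has no nonzero element in the direction `u` then its image under `ph u` is dense. -/
lemma dense_image {L : AddSubgroup ℂ} (hL : IsLat L) (u : ℂ)
    (h : ∀ l ∈ L, ph u l = 0 → l = 0) : Dense ((L.map (phHom u) : AddSubgroup ℝ) : Set ℝ) := by
  rcases (L.map (phHom u)).dense_or_cyclic with hd | ⟨g, hg⟩
  · exact hd
  · exfalso
    obtain ⟨e, he, f, hf, hind⟩ := hL.rk
    have h1 : phHom u e ∈ L.map (phHom u) := AddSubgroup.mem_map_of_mem _ he
    have h2 : phHom u f ∈ L.map (phHom u) := AddSubgroup.mem_map_of_mem _ hf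
    rw [hg, AddSubgroup.mem_closure_singleton] at h1 h2
    obtain ⟨m, hm⟩ := h1
    obtain ⟨n, hn⟩ := h2
    have h3 : ph u (n • e - m • f) = 0 := by
      have : phHom u (n • e - m • f) = 0 := by
        rw [map_sub, map_zsmul, map_zsmul, ← hm, ← hn, smul_smul, smul_smul, mul_comm, sub_self]
      exact this
    have h4 := h _ (L.sub_mem (L.zsmul_mem he n) (L.zsmul_mem hf m)) h3
    have h5 := hind n (-m) (by rw [neg_smul, ← sub_eq_add_neg]; exact h4)
    have hm0 : m = 0 := by omega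
    rw [hm0, zero_smul] at hm
    have h6 := h e he hm.symm
    have h7 := hind 1 0 (by rw [h6]; simp)
    omega

/-- no common directions -/
def NoCommon (L₁ L₂ : AddSubgroup ℂ) : Prop :=
  ∀ u : ℂ, ‖u‖ = 1 → (∀ l ∈ L₁, ph u l = 0 → l = 0) ∨ (∀ l ∈ L₂, ph u l = 0 → l = 0)

/-- every segment of length `V` comes close to the set -/
def Hits (D : Set ℂ) (ε V : ℝ) : Prop :=
  ∀ a b : ℂ, dist a b = V → ∃ p ∈ D, ∃ q ∈ segment ℝ a b, dist p q < ε

lemma avoid_false {L : AddSubgroup ℂ} (hL : IsLat L) (u y : ℂ) (hu : ‖u‖ = 1) (ε : ℝ) (hε : 0 < ε)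
    (h : ∀ l ∈ L, ph u l = 0 → l = 0) (hav : ∀ l ∈ L, ∀ t : ℝ, ε ≤ ‖l + y - t * u‖) : False := by
  have hd := dense_image hL u h
  obtain ⟨s, hs, hs'⟩ := hd.exists_dist_lt (-(ph u y)) hε
  obtain ⟨l, hl, rfl⟩ := hs
  have h1 := hav l hl (pr u (l + y))
  rw [norm_sub_pr u (l + y) hu, ph_add] at h1
  rw [Real.dist_eq, phHom_apply] at hs'
  have : |-(ph u y) - ph u l| = |ph u l + ph u y| := by
    rw [← abs_neg]; congr 1; ring
  rw [this] at hs'
  linarith

theorem hits_two {L₁ L₂ : AddSubgroup ℂ} (h₁ : IsLat L₁) (h₂ : IsLat L₂) (hno : NoCommon L₁ L₂)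
    (x₁ x₂ : ℂ) (D : Set ℂ) (hD₁ : ∀ l ∈ L₁, l + x₁ ∈ D) (hD₂ : ∀ l ∈ L₂, l + x₂ ∈ D)
    (ε : ℝ) (hε : 0 < ε) : ∃ V : ℝ, 0 < V ∧ Hits D ε V := by
  by_contra hcon
  push Not at hcon
  have hcon' : ∀ n : ℕ, ∃ a b : ℂ, dist a b = 2 * ((n : ℝ) + 1) ∧
      ∀ p ∈ D, ∀ q ∈ segment ℝ a b, ε ≤ dist p q := by
    intro n
    have := hcon (2 * ((n : ℝ) + 1)) (by positivity)
    unfold Hits at this
    push Not at this
    exact this
  choose a b hab hav using hcon'
  obtain ⟨R₁, hR₁⟩ := h₁.cov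
  obtain ⟨R₂, hR₂⟩ := h₂.cov
  set m : ℕ → ℂ := fun n => (a n + b n) / 2 with hm
  set u : ℕ → ℂ := fun n => (b n - a n) / (2 * ((n : ℝ) + 1) : ℝ) with hu
  choose l₁ hl₁ hl₁R using fun n => hR₁ (m n - x₁)
  choose l₂ hl₂ hl₂R using fun n => hR₂ (m n - x₂)
  have hun : ∀ n, ‖u n‖ = 1 := by
    intro n
    have h0 : (0 : ℝ) < 2 * ((n : ℝ) + 1) := by positivity
    rw [hu]
    simp only
    rw [norm_div, Complex.norm_real, Real.norm_eq_abs, abs_of_pos h0, ← dist_eq_norm, dist_comm,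
      hab n, div_self h0.ne']
  have hseg : ∀ n : ℕ, ∀ t : ℝ, |t| ≤ (n : ℝ) + 1 → m n + t * u n ∈ segment ℝ (a n) (b n) := by
    intro n t ht
    have h0 : (0 : ℝ) < 2 * ((n : ℝ) + 1) := by positivity
    rw [segment_eq_image']
    refine ⟨1 / 2 + t / (2 * ((n : ℝ) + 1)), ⟨?_, ?_⟩, ?_⟩
    · have := (abs_le.1 ht).1
      have : -(1/2) ≤ t / (2 * ((n : ℝ) + 1)) := by
        rw [le_div_iff₀ h0]; linarith
      linarith
    · have := (abs_le.1 ht).2
      have : t / (2 * ((n : ℝ) + 1)) ≤ 1/2 := by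
        rw [div_le_iff₀ h0]; linarith
      linarith
    · have h0' : ((2 * ((n : ℝ) + 1) : ℝ) : ℂ) ≠ 0 := by exact_mod_cast h0.ne'
      rw [hm, hu]
      simp only [Complex.real_smul]
      push_cast at h0' ⊢
      field_simp
      ring
  -- compactness
  have hcomp : IsCompact ((closedBall (0 : ℂ) R₁ ×ˢ closedBall (0 : ℂ) R₂) ×ˢ sphere (0 : ℂ) 1) :=
    ((isCompact_closedBall _ _).prod (isCompact_closedBall _ _)).prod (isCompact_sphere _ _)
  have hmem : ∀ n, (((x₁ + l₁ n - m n, x₂ + l₂ n - m n), u n) : (ℂ × ℂ) × ℂ) ∈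
      ((closedBall (0 : ℂ) R₁ ×ˢ closedBall (0 : ℂ) R₂) ×ˢ sphere (0 : ℂ) 1) := by
    intro n
    refine ⟨⟨?_, ?_⟩, ?_⟩
    · rw [mem_closedBall_zero_iff, ← norm_neg,
        show -(((x₁ + l₁ n - m n, x₂ + l₂ n - m n), u n) : (ℂ × ℂ) × ℂ).1.1 = m n - x₁ - l₁ n by
          simp only; ring]
      exact hl₁R n
    · rw [mem_closedBall_zero_iff, ← norm_neg,
        show -(((x₁ + l₁ n - m n, x₂ + l₂ n - m n), u n) : (ℂ × ℂ) × ℂ).1.2 = m n - x₂ - l₂ n by
          simp only; ring]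
      exact hl₂R n
    · rw [mem_sphere_zero_iff_norm]; exact hun n
  obtain ⟨⟨⟨y₁, y₂⟩, v⟩, hlim, φ, hφ, htend⟩ := hcomp.tendsto_subseq hmem
  have hv : ‖v‖ = 1 := by
    have := hlim.2
    rwa [mem_sphere_zero_iff_norm] at this
  have ht1 : Tendsto (fun k => x₁ + l₁ (φ k) - m (φ k)) atTop (𝓝 y₁) :=
    ((continuous_fst.comp continuous_fst).tendsto ((y₁, y₂), v)).comp htend
  have ht2 : Tendsto (fun k => x₂ + l₂ (φ k) - m (φ k)) atTop (𝓝 y₂) :=
    ((continuous_snd.comp continuous_fst).tendsto ((y₁, y₂), v)).comp htend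
  have ht3 : Tendsto (fun k => u (φ k)) atTop (𝓝 v) :=
    ((continuous_snd).tendsto ((y₁, y₂), v)).comp htend
  have hev : ∀ t : ℝ, ∀ᶠ k in atTop, |t| ≤ ((φ k : ℕ) : ℝ) + 1 := by
    intro t
    have : Tendsto (fun k => ((φ k : ℕ) : ℝ)) atTop atTop :=
      tendsto_natCast_atTop_atTop.comp hφ.tendsto_atTop
    filter_upwards [this.eventually_ge_atTop |t|] with k hk
    linarith
  have key : ∀ (L : AddSubgroup ℂ) (x : ℂ) (l : ℕ → ℂ) (y : ℂ), (∀ w ∈ L, w + x ∈ D) →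
      (∀ n, l n ∈ L) → Tendsto (fun k => x + l (φ k) - m (φ k)) atTop (𝓝 y) →
      ∀ w ∈ L, ∀ t : ℝ, ε ≤ ‖w + y - t * v‖ := by
    intro L x l y hD hl hty w hw t
    have hlim : Tendsto (fun k => ‖w + (x + l (φ k) - m (φ k)) - t * u (φ k)‖) atTop
        (𝓝 ‖w + y - t * v‖) :=
      ((tendsto_const_nhds.add hty).sub (tendsto_const_nhds.mul ht3)).norm
    refine ge_of_tendsto hlim ?_
    filter_upwards [hev t] with k hk
    have h1 := hav (φ k) (w + l (φ k) + x) (hD _ (L.add_mem hw (hl _))) _ (hseg (φ k) t hk)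
    rw [dist_eq_norm] at h1
    have e : w + l (φ k) + x - (m (φ k) + t * u (φ k)) =
        w + (x + l (φ k) - m (φ k)) - t * u (φ k) := by ring
    rw [e] at h1
    exact h1
  rcases hno v hv with h | h
  · exact avoid_false h₁ v y₁ hv ε hε h (key L₁ x₁ l₁ y₁ hD₁ hl₁ ht1)
  · exact avoid_false h₂ v y₂ hv ε hε h (key L₂ x₂ l₂ y₂ hD₂ hl₂ ht2)

/-- no common direction implies trivial intersection -/
lemma inter_zero {L₁ L₂ : AddSubgroup ℂ} (hno : NoCommon L₁ L₂) (z : ℂ) (h₁ : z ∈ L₁)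
    (h₂ : z ∈ L₂) : z = 0 := by
  by_contra hz
  have hn : (‖z‖ : ℝ) ≠ 0 := norm_ne_zero_iff.2 hz
  have hu : ‖z / (‖z‖ : ℝ)‖ = 1 := by
    rw [norm_div, Complex.norm_real, norm_norm, div_self hn]
  have hph : ph (z / (‖z‖ : ℝ)) z = 0 := by
    unfold ph
    rw [map_div₀, Complex.conj_ofReal, mul_div_assoc', Complex.mul_conj, ← Complex.ofReal_div,
      Complex.ofReal_im]
  rcases hno _ hu with h | h
  · exact hz (h z h₁ hph)
  · exact hz (h z h₂ hph)

/-- small elements of `L₁ + L₂` -/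
lemma small {L₁ L₂ : AddSubgroup ℂ} (h₁ : IsLat L₁) (h₂ : IsLat L₂) (hno : NoCommon L₁ L₂)
    (δ : ℝ) (hδ : 0 < δ) : ∃ h ∈ L₁ ⊔ L₂, h ≠ 0 ∧ ‖h‖ < δ := by
  obtain ⟨R, hR⟩ := h₁.cov
  obtain ⟨e, he, he0⟩ := h₂.ne_zero
  choose l hl hlR using fun n : ℕ => hR (n • e)
  have hmem : ∀ n : ℕ, n • e - l n ∈ closedBall (0 : ℂ) R := fun n => by
    rw [mem_closedBall_zero_iff]; exact hlR n
  obtain ⟨y, -, φ, hφ, hty⟩ := (isCompact_closedBall (0 : ℂ) R).tendsto_subseq hmem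
  have hc := hty.cauchySeq
  obtain ⟨N, hN⟩ := Metric.cauchySeq_iff'.1 hc δ hδ
  have h3 := hN (N + 1) (by omega)
  simp only [Function.comp] at h3
  rw [dist_eq_norm] at h3
  refine ⟨_, ?_, ?_, h3⟩
  · have ha : ∀ n : ℕ, n • e - l n ∈ L₁ ⊔ L₂ := fun n =>
      (L₁ ⊔ L₂).sub_mem (AddSubgroup.mem_sup_right (L₂.nsmul_mem he n))
        (AddSubgroup.mem_sup_left (hl n))
    exact (L₁ ⊔ L₂).sub_mem (ha _) (ha _)
  · intro h0
    have h4 : (φ (N + 1)) • e - (φ N) • e = l (φ (N + 1)) - l (φ N) := by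
      have h5 : (φ (N + 1)) • e - (φ N) • e - (l (φ (N + 1)) - l (φ N)) = 0 := by
        rw [← h0]; abel
      exact sub_eq_zero.1 h5
    have h6 : (φ (N + 1)) • e - (φ N) • e = 0 := by
      refine inter_zero hno _ ?_ (L₂.sub_mem (L₂.nsmul_mem he _) (L₂.nsmul_mem he _))
      rw [h4]
      exact L₁.sub_mem (hl _) (hl _)
    have h7 : φ (N + 1) • e = φ N • e := sub_eq_zero.1 h6
    have h8 : φ (N + 1) = φ N := by
      rw [nsmul_eq_mul, nsmul_eq_mul] at h7
      exact_mod_cast mul_right_cancel₀ he0 h7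
    have h9 := hφ (show N < N + 1 by omega)
    omega

lemma exists_ker {L : AddSubgroup ℂ} (hL : IsLat L) (u : ℂ) (G : AddSubgroup ℝ)
    (hG : ∀ l ∈ L, ph u l ∈ G) (g : ℝ) (hg : G = AddSubgroup.closure {g}) :
    ∃ l ∈ L, l ≠ 0 ∧ ph u l = 0 := by
  by_contra hcon
  push Not at hcon
  have hd := dense_image hL u (fun l hl h => by
    by_contra h0; exact hcon l hl h0 h)
  have hd2 : Dense ((AddSubgroup.zmultiples g : AddSubgroup ℝ) : Set ℝ) := by
    refine hd.mono ?_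
    rintro _ ⟨l, hl, rfl⟩
    rw [AddSubgroup.zmultiples_eq_closure, ← hg]
    exact hG l hl
  -- the multiples of `g` are not dense
  by_cases hg0 : g = 0
  · obtain ⟨x, hx, hx'⟩ := hd2.exists_dist_lt 1 (by norm_num : (0 : ℝ) < 1 / 2)
    rw [hg0] at hx
    have : x = 0 := by simpa using hx
    rw [this] at hx'
    norm_num at hx'
  · obtain ⟨x, hx, hx'⟩ := hd2.exists_dist_lt (g / 2) (by positivity : (0 : ℝ) < |g| / 4)
    obtain ⟨n, rfl⟩ := AddSubgroup.mem_zmultiples_iff.1 hx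
    rw [Real.dist_eq, zsmul_eq_mul] at hx'
    have h1 : g / 2 - n * g = (1 / 2 - n) * g := by ring
    rw [h1, abs_mul] at hx'
    have h2 : |(1 / 2 - n : ℝ)| < 1 / 4 := by
      by_contra h3
      push Not at h3
      have := mul_le_mul_of_nonneg_right h3 (abs_nonneg g)
      linarith
    have h3 := abs_lt.1 h2
    have h4 : (0 : ℝ) < n := by linarith [h3.2]
    have h5 : (n : ℝ) < 1 := by linarith [h3.1]
    have h6 : 0 < n := by exact_mod_cast h4
    have h7 : n < 1 := by exact_mod_cast h5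
    omega

theorem dense_sup {L₁ L₂ : AddSubgroup ℂ} (h₁ : IsLat L₁) (h₂ : IsLat L₂)
    (hno : NoCommon L₁ L₂) (z : ℂ) (δ : ℝ) (hδ : 0 < δ) : ∃ h ∈ L₁ ⊔ L₂, ‖z - h‖ < δ := by
  by_cases hc : ∀ η : ℝ, 0 < η → ∃ h ∈ L₁ ⊔ L₂, ∃ k ∈ L₁ ⊔ L₂, ‖h‖ < η ∧ ‖k‖ < η ∧ ph h k ≠ 0
  · obtain ⟨h, hh, k, hk, hhn, hkn, hp⟩ := hc (δ / 2) (by linarith)
    -- coordinates of `z`
    obtain ⟨s, t, hst⟩ : ∃ s t : ℝ, z = s * h + t * k := by
      refine ⟨- (ph k z) / ph h k, ph h z / ph h k, ?_⟩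
      have hp' : ((ph h k : ℝ) : ℂ) ≠ 0 := by exact_mod_cast hp
      have h1 : (ph h k : ℂ) * z = - (ph k z : ℂ) * h + (ph h z : ℂ) * k := by
        apply Complex.ext
        · simp [ph]; ring
        · simp [ph]; ring
      push_cast
      field_simp
      linear_combination h1
    refine ⟨(round s) • h + (round t) • k,
      (L₁ ⊔ L₂).add_mem ((L₁ ⊔ L₂).zsmul_mem hh _) ((L₁ ⊔ L₂).zsmul_mem hk _), ?_⟩
    have h2 : z - ((round s) • h + (round t) • k) =
        ((s - round s : ℝ) : ℂ) * h + ((t - round t : ℝ) : ℂ) * k := by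
      rw [hst, zsmul_eq_mul, zsmul_eq_mul]; push_cast; ring
    rw [h2]
    have h3 := abs_sub_round s
    have h4 := abs_sub_round t
    calc ‖((s - round s : ℝ) : ℂ) * h + ((t - round t : ℝ) : ℂ) * k‖
        ≤ ‖((s - round s : ℝ) : ℂ) * h‖ + ‖((t - round t : ℝ) : ℂ) * k‖ := norm_add_le _ _
      _ = |s - round s| * ‖h‖ + |t - round t| * ‖k‖ := by
          rw [norm_mul, norm_mul, Complex.norm_real, Complex.norm_real, Real.norm_eq_abs,
            Real.norm_eq_abs]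
      _ ≤ 1 / 2 * ‖h‖ + 1 / 2 * ‖k‖ := by
          gcongr
      _ < δ := by linarith
  · exfalso
    push Not at hc
    obtain ⟨η, hη, hc⟩ := hc
    obtain ⟨h0, hh0, hh00, hh0n⟩ := small h₁ h₂ hno η hη
    have hn : (‖h0‖ : ℝ) ≠ 0 := norm_ne_zero_iff.2 hh00
    set u : ℂ := h0 / (‖h0‖ : ℝ) with hu
    have hun : ‖u‖ = 1 := by
      rw [hu, norm_div, Complex.norm_real, norm_norm, div_self hn]
    have hphu : ∀ k : ℂ, ph u k = ph h0 k / ‖h0‖ := by
      intro k
      rw [hu]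
      unfold ph
      rw [map_div₀, Complex.conj_ofReal, mul_div_assoc', Complex.div_ofReal_im]
    have hsm : ∀ k ∈ L₁ ⊔ L₂, ‖k‖ < η → ph u k = 0 := by
      intro k hk hkn
      rw [hphu, hc h0 hh0 k hk hh0n hkn, zero_div]
    -- the image is cyclic
    have hcyc : ∃ g : ℝ, (L₁ ⊔ L₂).map (phHom u) = AddSubgroup.closure {g} := by
      rcases ((L₁ ⊔ L₂).map (phHom u)).dense_or_cyclic with hd | hcy
      · exfalso
        obtain ⟨x, ⟨k, hk, rfl⟩, hx'⟩ := hd.exists_dist_lt (η / 4) (by linarith : (0 : ℝ) < η / 8)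
        rw [phHom_apply, Real.dist_eq] at hx'
        have hk1 := abs_lt.1 hx'
        obtain ⟨h1, hh1, hh10, hh1n⟩ := small h₁ h₂ hno (η / 2) (by linarith)
        have hph1 := hsm h1 hh1 (by linarith)
        have e1 := eq_of_ph_zero u h1 hun hph1
        set s := pr u h1 with hs
        have hs0 : s ≠ 0 := by
          intro h; rw [h] at e1; simp at e1; exact hh10 e1
        have hsn : |s| < η / 2 := by
          have : ‖h1‖ = |s| := by
            rw [e1, norm_mul, hun, mul_one, Complex.norm_real, Real.norm_eq_abs]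
          linarith
        set n := round (pr u k / s) with hnn
        have hk' : k - n • h1 ∈ L₁ ⊔ L₂ := (L₁ ⊔ L₂).sub_mem hk ((L₁ ⊔ L₂).zsmul_mem hh1 _)
        have e2 : (n • h1 : ℂ) = ((n : ℝ) : ℂ) * h1 := by rw [zsmul_eq_mul]; push_cast; rfl
        have hph2 : ph u (k - n • h1) = ph u k := by
          rw [ph_sub, e2, ph_real, hph1, mul_zero, sub_zero]
        have hpr2 : pr u (k - n • h1) = (pr u k / s - n) * s := by
          rw [pr_sub, e2, pr_real, ← hs]; field_simp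
        have hnorm : ‖k - n • h1‖ < η := by
          refine lt_of_le_of_lt (norm_le u _ hun) ?_
          rw [hph2, hpr2, abs_mul]
          have h5 := abs_sub_round (pr u k / s)
          rw [← hnn] at h5
          have h6 : |pr u k / s - n| * |s| ≤ 1 / 2 * |s| := by gcongr
          have h7 : |ph u k| < η / 2 := by
            rw [abs_lt]; constructor <;> linarith [hk1.1, hk1.2]
          linarith
        have := hsm _ hk' hnorm
        rw [hph2] at this
        rw [this] at hk1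
        linarith [hk1.2]
      · exact hcy
    obtain ⟨g, hg⟩ := hcyc
    obtain ⟨a, ha, ha0, hpa⟩ := exists_ker h₁ u _ (fun l hl => AddSubgroup.mem_map_of_mem
      (phHom u) (AddSubgroup.mem_sup_left hl)) g hg
    obtain ⟨b, hb, hb0, hpb⟩ := exists_ker h₂ u _ (fun l hl => AddSubgroup.mem_map_of_mem
      (phHom u) (AddSubgroup.mem_sup_right hl)) g hg
    rcases hno u hun with h | h
    · exact ha0 (h a ha hpa)
    · exact hb0 (h b hb hpb)

/-- The union of translates of two lattices without common directions is not uniformly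
discrete. -/
theorem not_uniformly_discrete {L₁ L₂ : AddSubgroup ℂ} (h₁ : IsLat L₁) (h₂ : IsLat L₂)
    (hno : NoCommon L₁ L₂) (x₁ x₂ : ℂ) (r : ℝ) (hr : 0 < r) :
    ∃ a ∈ L₁, ∃ b ∈ L₂, a + x₁ ≠ b + x₂ ∧ dist (a + x₁) (b + x₂) < r := by
  obtain ⟨h, hh, hz⟩ := dense_sup h₁ h₂ hno (x₂ - x₁ + (r / 2 : ℝ)) (r / 2) (by linarith)
  obtain ⟨a, ha, b, hb, rfl⟩ := AddSubgroup.mem_sup.1 hh
  refine ⟨a, ha, -b, L₂.neg_mem hb, ?_, ?_⟩
  · intro heq
    have : x₂ - x₁ + (r / 2 : ℝ) - (a + b) = (r / 2 : ℝ) := by linear_combination -heq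
    rw [this, Complex.norm_real, Real.norm_eq_abs, abs_of_pos (by linarith)] at hz
    exact lt_irrefl _ hz
  · rw [dist_eq_norm]
    have e : a + x₁ - (-b + x₂) = -(x₂ - x₁ + (r / 2 : ℝ) - (a + b)) + (r / 2 : ℝ) := by ring
    rw [e]
    refine lt_of_le_of_lt (norm_add_le _ _) ?_
    rw [norm_neg, Complex.norm_real, Real.norm_eq_abs, abs_of_pos (by linarith)]
    linarith

end Pool.Agent.T9h96.Forest
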