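import Pool.Agent.T9h96.Forest

/-!
# The triangular lattice and its rotated copies
-/

set_option autoImplicit false

namespace Pool.Agent.T9h96.Forest

open Complex Metric Set Filter Topology

/-- the second generator `(1/2, √3/2)` -/
noncomputable def om : ℂ := 1 / 2 + (Real.sqrt 3 / 2 : ℝ) * I

/-- the lattice spanned by `(1, 0)` and `(1/2, √3/2)` -/
def Lam : Set ℂ := {z | ∃ a b : ℤ, z = a + b * om}

lemma om_sq : om * om = om - 1 := by
  unfold om
  have h3 : (Real.sqrt 3 : ℂ) ^ 2 = 3 := by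
    rw [← Complex.ofReal_pow, Real.sq_sqrt (by norm_num)]; norm_num
  push_cast
  have hI : I ^ 2 = -1 := Complex.I_sq
  linear_combination (1 / 4) * I ^ 2 * h3 + (3 / 4) * hI

lemma conj_om : (starRingEnd ℂ) om = 1 - om := by
  unfold om
  rw [map_add, map_mul, Complex.conj_ofReal, Complex.conj_I, map_div₀, map_one, map_ofNat]
  ring

lemma om_im : om.im = Real.sqrt 3 / 2 := by
  unfold om; simp

lemma om_re : om.re = 1 / 2 := by
  unfold om; simp

lemma sqrt3_pos : 0 < Real.sqrt 3 := Real.sqrt_pos.2 (by norm_num)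

lemma lam_mul {u v : ℂ} (hu : u ∈ Lam) (hv : v ∈ Lam) : u * v ∈ Lam := by
  obtain ⟨a, b, rfl⟩ := hu
  obtain ⟨c, d, rfl⟩ := hv
  refine ⟨a * c - b * d, a * d + b * c + b * d, ?_⟩
  push_cast
  linear_combination (b * d : ℂ) * om_sq

lemma lam_conj {u : ℂ} (hu : u ∈ Lam) : (starRingEnd ℂ) u ∈ Lam := by
  obtain ⟨a, b, rfl⟩ := hu
  refine ⟨a + b, -b, ?_⟩
  rw [map_add, map_mul, conj_om, map_intCast, map_intCast]
  push_cast; ring

lemma lam_one : (1 : ℂ) ∈ Lam := ⟨1, 0, by simp⟩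

lemma ind (a b : ℤ) (h : (a : ℂ) + b * om = 0) : a = 0 ∧ b = 0 := by
  have him : (b : ℝ) * (Real.sqrt 3 / 2) = 0 := by
    have := congrArg Complex.im h
    simpa [om_im, om_re] using this
  have hre : (a : ℝ) + b * (1 / 2) = 0 := by
    have := congrArg Complex.re h
    simpa [om_im, om_re] using this
  have hb : (b : ℝ) = 0 := by
    rcases mul_eq_zero.1 him with h | h
    · exact h
    · have := sqrt3_pos; linarith
  rw [hb] at hre
  constructor
  · have : (a : ℝ) = 0 := by linarith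
    exact_mod_cast this
  · exact_mod_cast hb

/-- the lattice as a subgroup -/
def LamS : AddSubgroup ℂ where
  carrier := Lam
  zero_mem' := ⟨0, 0, by simp⟩
  add_mem' := by
    rintro _ _ ⟨a, b, rfl⟩ ⟨c, d, rfl⟩
    exact ⟨a + c, b + d, by push_cast; ring⟩
  neg_mem' := by
    rintro _ ⟨a, b, rfl⟩
    exact ⟨-a, -b, by push_cast; ring⟩

/-- the rotated lattice -/
def rotL (c : ℂ) : AddSubgroup ℂ := LamS.map (AddMonoidHom.mulLeft c)

lemma mem_rotL {c z : ℂ} : z ∈ rotL c ↔ ∃ l ∈ Lam, c * l = z := by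
  unfold rotL
  rw [AddSubgroup.mem_map]
  rfl

lemma isLat (c : ℂ) (hc : ‖c‖ = 1) : IsLat (rotL c) := by
  have hc0 : c ≠ 0 := by
    intro h; rw [h, norm_zero] at hc; norm_num at hc
  refine ⟨⟨2, fun z => ?_⟩, ⟨c * 1, mem_rotL.2 ⟨1, lam_one, rfl⟩, c * om,
    mem_rotL.2 ⟨om, ⟨0, 1, by simp⟩, rfl⟩, ?_⟩⟩
  · -- covering radius
    have h3 := sqrt3_pos
    set w := z / c with hw
    set b : ℝ := w.im / (Real.sqrt 3 / 2) with hb
    set a : ℝ := w.re - b / 2 with ha
    have hw2 : w = a + b * om := by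
      have h5 : b * (Real.sqrt 3 / 2) = w.im := by rw [hb]; field_simp
      apply Complex.ext
      · rw [Complex.add_re, Complex.ofReal_re, Complex.re_ofReal_mul, om_re, ha]; ring
      · rw [Complex.add_im, Complex.ofReal_im, Complex.im_ofReal_mul, om_im, h5, zero_add]
    refine ⟨c * ((round a : ℤ) + (round b : ℤ) * om), mem_rotL.2 ⟨_, ⟨_, _, rfl⟩, rfl⟩, ?_⟩
    have hz : z = c * w := by rw [hw]; field_simp
    have h4 : z - c * ((round a : ℤ) + (round b : ℤ) * om) =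
        c * (((a - round a : ℝ) : ℂ) + ((b - round b : ℝ) : ℂ) * om) := by
      rw [hz, hw2]; push_cast; ring
    rw [h4, norm_mul, hc, one_mul]
    have hom : ‖om‖ = 1 := by
      have h5 : ‖om‖ ^ 2 = 1 := by
        rw [← Complex.normSq_eq_norm_sq, Complex.normSq_apply, om_re, om_im]
        have := Real.mul_self_sqrt (show (0 : ℝ) ≤ 3 by norm_num)
        linear_combination (1 / 4) * this
      have h6 := norm_nonneg om
      nlinarith
    calc ‖((a - round a : ℝ) : ℂ) + ((b - round b : ℝ) : ℂ) * om‖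
        ≤ ‖((a - round a : ℝ) : ℂ)‖ + ‖((b - round b : ℝ) : ℂ) * om‖ := norm_add_le _ _
      _ = |a - round a| + |b - round b| := by
          rw [norm_mul, hom, mul_one, Complex.norm_real, Complex.norm_real, Real.norm_eq_abs,
            Real.norm_eq_abs]
      _ ≤ 1 / 2 + 1 / 2 := add_le_add (abs_sub_round _) (abs_sub_round _)
      _ ≤ 2 := by norm_num
  · intro m n h
    rw [zsmul_eq_mul, zsmul_eq_mul] at h
    apply ind
    have h1 : c * (m + n * om) = 0 := by rw [← h]; ring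
    rcases mul_eq_zero.1 h1 with h2 | h2
    · exact absurd h2 hc0
    · exact h2

/-- the rotated copies with rotations `c₁`, `c₂` have a common direction -/
def Comm (c₁ c₂ : ℂ) : Prop :=
  ∃ u ∈ Lam, ∃ v ∈ Lam, u ≠ 0 ∧ v ≠ 0 ∧ ∃ t : ℝ, c₁ * u = t * (c₂ * v)

lemma noCommon {c₁ c₂ : ℂ} (h : ¬ Comm c₁ c₂) :
    NoCommon (rotL c₁) (rotL c₂) := by
  intro w hw
  by_contra hcon
  push Not at hcon
  obtain ⟨⟨l, hl, hl1, hl0⟩, ⟨k, hk, hk1, hk0⟩⟩ := hcon
  have e1 := eq_of_ph_zero w l hw hl1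
  have e2 := eq_of_ph_zero w k hw hk1
  obtain ⟨u, hu, rfl⟩ := mem_rotL.1 hl
  obtain ⟨v, hv, rfl⟩ := mem_rotL.1 hk
  apply h
  refine ⟨u, hu, v, hv, ?_, ?_, pr w (c₁ * u) / pr w (c₂ * v), ?_⟩
  · rintro rfl; simp at hl0
  · rintro rfl; simp at hk0
  · have h0 : (pr w (c₂ * v) : ℂ) ≠ 0 := by
      intro h0; rw [h0, zero_mul] at e2; exact hk0 e2
    have h3 : (pr w (c₂ * v) : ℂ) * (c₁ * u) = (pr w (c₁ * u) : ℂ) * (c₂ * v) := by
      calc (pr w (c₂ * v) : ℂ) * (c₁ * u) = (pr w (c₂ * v) : ℂ) * ((pr w (c₁ * u) : ℝ) * w) := by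
            rw [← e1]
        _ = (pr w (c₁ * u) : ℂ) * ((pr w (c₂ * v) : ℝ) * w) := by ring
        _ = _ := by rw [← e2]
    rw [Complex.ofReal_div, div_mul_eq_mul_div, eq_div_iff h0, ← h3]
    ring

/-- the union of rotated and translated copies -/
def copies {ι : Type*} (c x : ι → ℂ) : Set ℂ := ⋃ i, (fun z => c i * z + x i) '' Lam

theorem hits_of_not_comm {ι : Type*} (c x : ι → ℂ) (hc : ∀ i, ‖c i‖ = 1) (i j : ι)
    (h : ¬ Comm (c i) (c j)) (ε : ℝ) (hε : 0 < ε) : ∃ V : ℝ, 0 < V ∧ Hits (copies c x) ε V := by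
  refine hits_two (isLat _ (hc i)) (isLat _ (hc j)) (noCommon h) (x i) (x j) _ ?_ ?_ ε hε
  · intro l hl
    obtain ⟨u, hu, rfl⟩ := mem_rotL.1 hl
    exact mem_iUnion.2 ⟨i, u, hu, rfl⟩
  · intro l hl
    obtain ⟨u, hu, rfl⟩ := mem_rotL.1 hl
    exact mem_iUnion.2 ⟨j, u, hu, rfl⟩

theorem comm_of_uniformly_discrete {ι : Type*} (c x : ι → ℂ) (hc : ∀ i, ‖c i‖ = 1) (r : ℝ)
    (hr : 0 < r) (hD : ∀ p ∈ copies c x, ∀ q ∈ copies c x, p ≠ q → r ≤ dist p q) (i j : ι) :
    Comm (c i) (c j) := by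
  by_contra h
  obtain ⟨a, ha, b, hb, hne, hlt⟩ :=
    not_uniformly_discrete (isLat _ (hc i)) (isLat _ (hc j)) (noCommon h) (x i) (x j) r hr
  obtain ⟨u, hu, rfl⟩ := mem_rotL.1 ha
  obtain ⟨v, hv, rfl⟩ := mem_rotL.1 hb
  have := hD _ (mem_iUnion.2 ⟨i, u, hu, rfl⟩) _ (mem_iUnion.2 ⟨j, v, hv, rfl⟩) hne
  linarith

/-- if all copies are commensurable then there is a line far away from the union -/
theorem exists_line {ι : Type*} [Finite ι] (c x : ι → ℂ) (w : ℂ)
    (h : ∀ i, ∃ v ∈ Lam, v ≠ 0 ∧ ph w (c i * v) = 0) :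
    ∃ s : ℝ, ∃ ε : ℝ, 0 < ε ∧ ∀ p ∈ copies c x, ε ≤ |ph w p - s| := by
  -- the values of `ph w` on the `i`-th copy
  have hval : ∀ i, ∃ g : ℝ, ∀ l ∈ Lam, ∃ n : ℤ, ph w (c i * l) = g * n := by
    intro i
    obtain ⟨v, ⟨n₀, m₀, rfl⟩, hv0, hph⟩ := h i
    have hlin : ∀ a b : ℤ, ph w (c i * (a + b * om)) = a * ph w (c i) + b * ph w (c i * om) := by
      intro a b
      have : c i * (a + b * om) = ((a : ℝ) : ℂ) * c i + ((b : ℝ) : ℂ) * (c i * om) := by
        push_cast; ring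
      rw [this, ph_add, ph_real, ph_real]
    rw [hlin] at hph
    by_cases hm : m₀ = 0
    · have hn : (n₀ : ℝ) ≠ 0 := by
        intro hn
        have hn' : n₀ = 0 := by exact_mod_cast hn
        apply hv0; rw [hm, hn']; simp
      rw [hm] at hph
      have h1 : ph w (c i) = 0 := by
        have : (n₀ : ℝ) * ph w (c i) = 0 := by simpa using hph
        rcases mul_eq_zero.1 this with h2 | h2
        · exact absurd h2 hn
        · exact h2
      refine ⟨ph w (c i * om), ?_⟩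
      rintro _ ⟨a, b, rfl⟩
      exact ⟨b, by rw [hlin, h1]; ring⟩
    · have hm' : (m₀ : ℝ) ≠ 0 := by exact_mod_cast hm
      have h1 : ph w (c i * om) = -(n₀ * ph w (c i)) / m₀ := by
        field_simp; linarith
      refine ⟨ph w (c i) / m₀, ?_⟩
      rintro _ ⟨a, b, rfl⟩
      refine ⟨a * m₀ - b * n₀, ?_⟩
      rw [hlin, h1]; push_cast; field_simp; ring
  choose g hg using hval
  -- closed sets
  have hclosed : ∀ i, IsClosed (Set.range fun n : ℤ => g i * n + ph w (x i)) := by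
    intro i
    by_cases hgi : g i = 0
    · have : (Set.range fun n : ℤ => g i * n + ph w (x i)) = {ph w (x i)} := by
        rw [hgi]; simp
      rw [this]; exact isClosed_singleton
    · have h1 : IsClosed (Set.range (fun n : ℤ => (n : ℝ))) :=
        Int.isClosedEmbedding_coe_real.isClosed_range
      have h2 := (((Homeomorph.mulLeft₀ (g i) hgi).trans
        (Homeomorph.addRight (ph w (x i)))).isClosedMap) _ h1
      convert h2 using 1
      ext y
      simp
  have hU : IsClosed (⋃ i, Set.range fun n : ℤ => g i * n + ph w (x i)) :=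
    isClosed_iUnion_of_finite hclosed
  have hcount : (⋃ i, Set.range fun n : ℤ => g i * n + ph w (x i)).Countable :=
    countable_iUnion fun i => countable_range _
  have hne : ∃ s : ℝ, s ∉ ⋃ i, Set.range fun n : ℤ => g i * n + ph w (x i) := by
    by_contra hcon
    push Not at hcon
    have : (Set.univ : Set ℝ).Countable := hcount.mono fun s _ => hcon s
    exact Cardinal.not_countable_real this
  obtain ⟨s, hs⟩ := hne
  obtain ⟨ε, hε, hb⟩ := Metric.isOpen_iff.1 hU.isOpen_compl s hs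
  refine ⟨s, ε, hε, ?_⟩
  intro p hp
  obtain ⟨i, l, hl, rfl⟩ := mem_iUnion.1 hp
  obtain ⟨n, hn⟩ := hg i l hl
  by_contra hlt
  push Not at hlt
  have h1 : ph w (c i * l + x i) ∈ ball s ε := by
    rw [mem_ball, Real.dist_eq]; exact hlt
  apply hb h1
  refine mem_iUnion.2 ⟨i, n, ?_⟩
  simp only
  rw [ph_add, hn]

lemma exists_dir {ι : Type*} (c : ι → ℂ) (i₀ : ι)
    (h : ∀ i, Comm (c i) (c i₀)) :
    ∀ i, ∃ v ∈ Lam, v ≠ 0 ∧ ph (c i₀) (c i * v) = 0 := by
  intro i
  obtain ⟨u, hu, v, hv, hu0, hv0, t, ht⟩ := h i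
  refine ⟨u * (starRingEnd ℂ) v, lam_mul hu (lam_conj hv), mul_ne_zero hu0
    ((map_ne_zero _).2 hv0), ?_⟩
  have h1 : c i * (u * (starRingEnd ℂ) v) = ((t * Complex.normSq v : ℝ) : ℂ) * c i₀ := by
    rw [← mul_assoc, ht]
    have := Complex.mul_conj v
    push_cast
    linear_combination (t * c i₀ : ℂ) * this
  rw [h1, ph_real]
  unfold ph
  rw [Complex.mul_conj, Complex.ofReal_im, mul_zero]

/-- if all copies are commensurable then the union is not a dense forest -/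
theorem not_hits {ι : Type*} [Finite ι] (c x : ι → ℂ) (hc : ∀ i, ‖c i‖ = 1) (i₀ : ι)
    (h : ∀ i, Comm (c i) (c i₀)) : ∃ ε : ℝ, 0 < ε ∧ ∀ V : ℝ, 0 ≤ V → ∃ a b : ℂ, dist a b = V ∧
      ∀ p ∈ copies c x, ∀ q ∈ segment ℝ a b, ε ≤ dist p q := by
  obtain ⟨s, ε, hε, hp⟩ := exists_line c x (c i₀) (exists_dir c i₀ h)
  have hcc : c i₀ * (starRingEnd ℂ) (c i₀) = 1 := by
    rw [Complex.mul_conj, Complex.normSq_eq_norm_sq, hc]; simp
  refine ⟨ε, hε, fun V hV => ⟨s * I * c i₀, s * I * c i₀ + V * c i₀, ?_, ?_⟩⟩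
  · rw [dist_eq_norm]
    have : (s * I * c i₀ - (s * I * c i₀ + V * c i₀) : ℂ) = -(V * c i₀) := by ring
    rw [this, norm_neg, norm_mul, hc, mul_one, Complex.norm_real, Real.norm_eq_abs, abs_of_nonneg hV]
  · intro p hpD q hq
    have hqs : ph (c i₀) q = s := by
      rw [segment_eq_image'] at hq
      obtain ⟨θ, -, rfl⟩ := hq
      unfold ph
      simp only [Complex.real_smul]
      have : (s * I * c i₀ + θ * (s * I * c i₀ + V * c i₀ - s * I * c i₀)) * (starRingEnd ℂ) (c i₀) =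
          s * I + (θ * V : ℝ) := by
        push_cast
        linear_combination (s * I + θ * V : ℂ) * hcc
      rw [this]
      simp
    have h1 := hp p hpD
    refine h1.trans ?_
    rw [← hqs, ← ph_sub, dist_eq_norm]
    unfold ph
    refine (Complex.abs_im_le_norm _).trans ?_
    rw [norm_mul, Complex.norm_conj, hc, mul_one]

end Pool.Agent.T9h96.Forest
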